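import Pool.Agent.K4W.StmtsA
import Pool.Agent.Helper85_HUA.Spl

set_option autoImplicit false

namespace Pool.Agent.K4W.H81

open Finset

/-- The sum over the frequencies with a given greatest common divisor. -/
lemma asp_one (u d v : ℕ) (ξ ρ A : ℝ) (F : ℕ → ℝ) (hd : 1 ≤ d) (hv : 1 ≤ v) (hdv : d * v = u)
    (hρ : 0 ≤ ρ) (hA : 0 ≤ A) (hF : ∀ m < u, 0 ≤ F m ∧ F m ≤ A)
    (hFδ : ∀ m < u, ∀ δ : ℝ, 0 < δ → δ ≤ 1 / 2 →
      (∀ z : ℤ, δ + ρ ≤ |ξ - (m : ℝ) / (u : ℝ) - (z : ℝ)|) → F m ≤ 6 / δ) :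
    ∑ m ∈ (range u).filter (fun m => Nat.gcd m u = d), F m ≤
      (2 * ρ * (v : ℝ) + 5) * A + 24 * (v : ℝ) * (1 + Real.log v) := by
  have hd' : (0 : ℝ) < d := by exact_mod_cast hd
  have hv' : (0 : ℝ) < v := by exact_mod_cast hv
  have hu' : (u : ℝ) = d * v := by rw [← hdv]; push_cast; ring
  have hlt : ∀ m' ∈ range v, d * m' < u := by
    intro m' hm'
    rw [← hdv]
    exact Nat.mul_lt_mul_of_pos_left (mem_range.mp hm') hd
  set G : ℕ → ℝ := fun m' => if Nat.gcd (d * m') u = d then F (d * m') / 2 else 0 with hG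
  have hspl := VM.H85.spl v ξ ρ (A / 2) G hv hρ (by positivity) (by
    intro m' hm'
    have h := hF (d * m') (hlt m' hm')
    simp only [hG]
    split_ifs
    · linarith [h.2]
    · positivity) (by
    intro m' hm' δ hδ hδ2 hz
    simp only [hG]
    split_ifs
    · have h := hFδ (d * m') (hlt m' hm') δ hδ hδ2 (by
        intro z
        have := hz z
        have e : ((d * m' : ℕ) : ℝ) / (u : ℝ) = (m' : ℝ) / (v : ℝ) := by
          rw [hu']
          push_cast
          rw [mul_div_mul_left _ _ hd'.ne']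
        rw [e]
        exact this)
      have e : (6 : ℝ) / δ = 2 * (3 / δ) := by ring
      rw [e] at h
      linarith
    · positivity)
  have hsum : ∑ m ∈ (range u).filter (fun m => Nat.gcd m u = d), F m = 2 * ∑ m' ∈ range v, G m' := by
    rw [mul_sum]
    have e1 : ∑ m' ∈ range v, 2 * G m' =
        ∑ m' ∈ (range v).filter (fun m' => Nat.gcd (d * m') u = d), F (d * m') := by
      rw [sum_filter]
      apply sum_congr rfl
      intro m' _
      simp only [hG]
      split_ifs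
      · ring
      · ring
    rw [e1]
    refine Finset.sum_nbij' (fun m => m / d) (fun m' => d * m') ?_ ?_ ?_ ?_ ?_
    · intro m hm
      rw [mem_filter, mem_range] at hm ⊢
      obtain ⟨hm1, hm2⟩ := hm
      have hdm : d ∣ m := by rw [← hm2]; exact Nat.gcd_dvd_left _ _
      obtain ⟨k, rfl⟩ := hdm
      rw [Nat.mul_div_cancel_left _ hd]
      refine ⟨?_, hm2⟩
      rw [← hdv] at hm1
      exact Nat.lt_of_mul_lt_mul_left hm1
    · intro m' hm'
      rw [mem_filter] at hm' ⊢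
      exact ⟨mem_range.mpr (hlt m' hm'.1), hm'.2⟩
    · intro m hm
      rw [mem_filter, mem_range] at hm
      have hdm : d ∣ m := by rw [← hm.2]; exact Nat.gcd_dvd_left _ _
      exact Nat.mul_div_cancel' hdm
    · intro m' _
      exact Nat.mul_div_cancel_left _ hd
    · intro m hm
      rw [mem_filter, mem_range] at hm
      have hdm : d ∣ m := by rw [← hm.2]; exact Nat.gcd_dvd_left _ _
      rw [Nat.mul_div_cancel' hdm]
  rw [hsum]
  linarith [hspl]

theorem asp : AspStmt := by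
  intro u ξ ρ A a₁ a₂ w F hu hρ hA ha₁ ha₂ hF hw hFδ
  have hu' : (0 : ℝ) < u := by exact_mod_cast hu
  have hu1 : (1 : ℝ) ≤ u := by exact_mod_cast hu
  have hu0 : u ≠ 0 := by omega
  have hmaps : ∀ m ∈ range u, Nat.gcd m u ∈ u.divisors := by
    intro m _
    exact Nat.mem_divisors.mpr ⟨Nat.gcd_dvd_right _ _, hu0⟩
  rw [← sum_fiberwise_of_maps_to hmaps]
  rw [← nsmul_eq_mul, ← sum_const]
  apply sum_le_sum
  intro d hd
  have hdu : d ∣ u := Nat.dvd_of_mem_divisors hd
  obtain ⟨v, hv⟩ := hdu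
  have hd1 : 1 ≤ d := by
    rcases Nat.eq_zero_or_pos d with h | h
    · subst h; omega
    · exact h
  have hv1 : 1 ≤ v := by
    rcases Nat.eq_zero_or_pos v with h | h
    · subst h; omega
    · exact h
  have hd' : (0 : ℝ) < d := by exact_mod_cast hd1
  have hv' : (1 : ℝ) ≤ v := by exact_mod_cast hv1
  have hdv' : (u : ℝ) = d * v := by rw [hv]; push_cast; ring
  have hone := asp_one u d v ξ ρ A F hd1 hv1 hv.symm hρ hA hF hFδ
  set S := ∑ m ∈ (range u).filter (fun m => Nat.gcd m u = d), F m with hS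
  have hS0 : 0 ≤ S := by
    apply sum_nonneg
    intro m hm
    exact (hF m (mem_range.mp (mem_filter.mp hm).1)).1
  set W : ℝ := min a₁ (a₂ * d) with hW
  have hW0 : 0 ≤ W := le_min ha₁ (by positivity)
  have hW1 : W ≤ a₁ := min_le_left _ _
  have hW2 : W ≤ a₂ * d := min_le_right _ _
  have h1 : ∑ m ∈ (range u).filter (fun m => Nat.gcd m u = d), w m * F m ≤ W * S := by
    rw [hS, mul_sum]
    apply sum_le_sum
    intro m hm
    obtain ⟨hm1, hm2⟩ := mem_filter.mp hm
    have hmu := mem_range.mp hm1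
    obtain ⟨w0, w1, w2⟩ := hw m hmu
    rw [hm2] at w2
    exact mul_le_mul_of_nonneg_right (le_min w1 w2) (hF m hmu).1
  have hlogv : Real.log v ≤ Real.log u := by
    apply Real.log_le_log (by linarith)
    rw [hdv']
    have : (1 : ℝ) ≤ d := by exact_mod_cast hd1
    nlinarith
  have hlogv0 : 0 ≤ Real.log v := Real.log_nonneg hv'
  have h2 : W * S ≤ W * ((2 * ρ * (v : ℝ) + 5) * A + 24 * (v : ℝ) * (1 + Real.log v)) :=
    mul_le_mul_of_nonneg_left hone hW0
  have h3 : W * (2 * ρ * v * A) ≤ a₂ * d * (2 * ρ * v * A) :=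
    mul_le_mul_of_nonneg_right hW2 (by positivity)
  have h4 : W * (5 * A) ≤ a₁ * (5 * A) := mul_le_mul_of_nonneg_right hW1 (by positivity)
  have h5 : W * (24 * (v : ℝ) * (1 + Real.log v)) ≤ a₂ * d * (24 * (v : ℝ) * (1 + Real.log u)) := by
    apply mul_le_mul hW2 _ (by positivity) (by positivity)
    apply mul_le_mul_of_nonneg_left _ (by positivity)
    linarith
  have h6 : W * ((2 * ρ * (v : ℝ) + 5) * A + 24 * (v : ℝ) * (1 + Real.log v)) =
      W * (2 * ρ * v * A) + W * (5 * A) + W * (24 * (v : ℝ) * (1 + Real.log v)) := by ring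
  calc ∑ m ∈ (range u).filter (fun m => Nat.gcd m u = d), w m * F m ≤ W * S := h1
    _ ≤ _ := h2
    _ ≤ a₂ * d * (2 * ρ * v * A) + a₁ * (5 * A) + a₂ * d * (24 * (v : ℝ) * (1 + Real.log u)) := by
        rw [h6]; linarith
    _ = 2 * ρ * (u : ℝ) * a₂ * A + 5 * a₁ * A + 24 * (u : ℝ) * a₂ * (1 + Real.log u) := by
        rw [hdv']; ring

end Pool.Agent.K4W.H81
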