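import Pool.Agent.K4W.StmtsM

set_option autoImplicit false

namespace Pool.Agent.K4W.H81

open Finset

theorem mfa : MfaStmt := by
  intro n M q B s c hq hs hB
  obtain ⟨i, rfl⟩ := Finset.card_eq_one.mp hB
  apply sum_eq_zero
  intro m hm
  rw [Fintype.mem_piFinset] at hm
  have hmi := hm i
  rw [if_pos (mem_singleton_self i)] at hmi
  rw [if_neg]
  intro hdvd
  rw [sum_singleton] at hdvd
  have hqp : Prime (q : ℤ) := Nat.prime_iff_prime_int.mp hq
  have h1 : (q : ℤ) ∣ m i ^ 2 := by
    rcases hs i with h | h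
    · rw [h, one_mul] at hdvd
      exact hdvd
    · rw [h, neg_one_mul] at hdvd
      exact (dvd_neg).mp hdvd
  have h2 : (q : ℤ) ∣ m i := hqp.dvd_of_dvd_pow h1
  unfold Tm at hmi
  rw [mem_filter] at hmi
  exact hmi.2 h2

end Pool.Agent.K4W.H81
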