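import Pool.Agent.K4W.StmtsP

set_option autoImplicit false

namespace Pool.Agent.K4W.H81

theorem trm (hTRV : TrvStmt) : TrmStmt := by
  intro N r μ b β hN hr hb hμ hμr
  obtain ⟨s, rfl⟩ := hμr
  have hs : Odd s := (Nat.odd_mul.mp hr).2
  have hs0 : 0 < s := hs.pos
  have hμ' : (0 : ℝ) < μ := by exact_mod_cast hμ
  have hs' : (0 : ℝ) < s := by exact_mod_cast hs0
  have hbs : IsCoprime b (s : ℤ) := by
    have : IsCoprime b ((μ : ℤ) * (s : ℤ)) := by exact_mod_cast hb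
    exact (IsCoprime.mul_right_iff.mp this).2
  have h := hTRV N s b ((μ : ℝ) * β) hN hs hbs
  have e1 : (μ : ℝ) * ((b : ℝ) / ((μ * s : ℕ) : ℝ) + β) = (b : ℝ) / (s : ℝ) + (μ : ℝ) * β := by
    push_cast
    field_simp
  have e2 : RR N (μ * s) ((μ : ℝ) * β) = (μ : ℝ) * RR N s ((μ : ℝ) * β) := by
    unfold RR
    push_cast
    ring
  rw [e1, e2]
  have e3 : (N : ℝ) * (μ : ℝ) / (2 * ((μ : ℝ) * RR N s ((μ : ℝ) * β))) =
      (N : ℝ) / (2 * RR N s ((μ : ℝ) * β)) := by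
    rw [show 2 * ((μ : ℝ) * RR N s ((μ : ℝ) * β)) = (2 * RR N s ((μ : ℝ) * β)) * (μ : ℝ) by ring,
      mul_div_mul_right _ _ hμ'.ne']
  have e4 : (μ : ℝ) * RR N s ((μ : ℝ) * β) / (μ : ℝ) = RR N s ((μ : ℝ) * β) := by
    rw [mul_div_cancel_left₀ _ hμ'.ne']
  rw [e3, e4]
  exact h

end Pool.Agent.K4W.H81
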