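import Pool.Agent.K4W.StmtsP

set_option autoImplicit false

namespace Pool.Agent.K4W.H81

open Complex

lemma wg_pos (N : ℕ) (γ : ℝ) (hN : 0 < N) : 0 < wg N γ := by
  have hN' : (0 : ℝ) < N := by exact_mod_cast hN
  unfold wg
  apply Real.sqrt_pos.mpr
  have h1 : 0 < 4 / (N : ℝ) ^ 2 := by positivity
  have h2 : 0 ≤ γ ^ 2 * (N : ℝ) ^ 2 := by positivity
  linarith

lemma wg_sq (N : ℕ) (γ : ℝ) : wg N γ ^ 2 = 4 / (N : ℝ) ^ 2 + γ ^ 2 * (N : ℝ) ^ 2 := by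
  unfold wg
  rw [Real.sq_sqrt]
  positivity

lemma Ag_re (N : ℕ) (γ : ℝ) : (Ag N γ).re = 4 / (N : ℝ) ^ 2 := by
  unfold Ag
  rw [Complex.sub_re, Complex.ofReal_re]
  simp

lemma Ag_im (N : ℕ) (γ : ℝ) : (Ag N γ).im = -(2 * γ) := by
  unfold Ag
  rw [Complex.sub_im, Complex.ofReal_im]
  simp

lemma Ag_normSq (N : ℕ) (γ : ℝ) (hN : 0 < N) :
    Complex.normSq (Ag N γ) = (2 * wg N γ / (N : ℝ)) ^ 2 := by
  have hN' : (0 : ℝ) < N := by exact_mod_cast hN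
  rw [Complex.normSq_apply, Ag_re, Ag_im, div_pow, mul_pow, wg_sq]
  field_simp
  ring

lemma Ag_norm (N : ℕ) (γ : ℝ) (hN : 0 < N) : ‖Ag N γ‖ = 2 * wg N γ / (N : ℝ) := by
  have hN' : (0 : ℝ) < N := by exact_mod_cast hN
  have hw := wg_pos N γ hN
  have h : ‖Ag N γ‖ ^ 2 = (2 * wg N γ / (N : ℝ)) ^ 2 := by
    rw [← Ag_normSq N γ hN, Complex.normSq_eq_norm_sq]
  have h0 : 0 ≤ 2 * wg N γ / (N : ℝ) := by positivity
  exact (pow_left_inj₀ (norm_nonneg _) h0 two_ne_zero).mp h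

theorem cab : CabStmt := by
  intro N r γ m hN hr
  have hN' : (0 : ℝ) < N := by exact_mod_cast hN
  have hr' : (0 : ℝ) < r := by exact_mod_cast hr
  have hw := wg_pos N γ hN
  have hR : 0 < RR N r γ := mul_pos hr' hw
  refine ⟨hR, ?_⟩
  have hA : ‖Ag N γ‖ = 2 * wg N γ / (N : ℝ) := Ag_norm N γ hN
  have hApos : 0 < ‖Ag N γ‖ := by rw [hA]; positivity
  have hA0 : Ag N γ ≠ 0 := norm_pos_iff.mp hApos
  have e1 : ‖(((r : ℝ) ^ (-(1 / 2) : ℝ) : ℝ) : ℂ)‖ = (r : ℝ) ^ (-(1 / 2) : ℝ) := by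
    rw [Complex.norm_real, Real.norm_of_nonneg (Real.rpow_nonneg hr'.le _)]
  have e2 : ‖(Ag N γ) ^ (-(1 / 2) : ℂ)‖ = (2 * wg N γ / (N : ℝ)) ^ (-(1 / 2) : ℝ) := by
    rw [Complex.norm_cpow_of_ne_zero hA0, hA]
    have h1 : (-(1 / 2) : ℂ).re = (-(1 / 2) : ℝ) := by norm_num
    have h2 : (-(1 / 2) : ℂ).im = 0 := by norm_num
    rw [h1, h2]
    simp
  have e3 : ‖Complex.exp (-((Real.pi : ℂ) * (m : ℂ) ^ 2 / ((r : ℂ) ^ 2 * Ag N γ)))‖ =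
      Real.exp (-(Real.pi * (m : ℝ) ^ 2 / (RR N r γ) ^ 2)) := by
    rw [Complex.norm_exp]
    congr 1
    have h1 : (Real.pi : ℂ) * (m : ℂ) ^ 2 / ((r : ℂ) ^ 2 * Ag N γ) =
        (((Real.pi * (m : ℝ) ^ 2 / (r : ℝ) ^ 2 : ℝ)) : ℂ) * (Ag N γ)⁻¹ := by
      push_cast
      have : (r : ℂ) ≠ 0 := by exact_mod_cast hr.ne'
      field_simp
    rw [Complex.neg_re, h1, Complex.re_ofReal_mul, Complex.inv_re, Ag_re, Ag_normSq N γ hN]
    unfold RR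
    field_simp
    norm_num
  unfold cf
  rw [norm_mul, norm_mul, e1, e2, e3]
  congr 1
  rw [← Real.mul_rpow hr'.le (by positivity), Real.rpow_neg (by positivity), ← Real.sqrt_eq_rpow,
    ← Real.sqrt_inv]
  congr 1
  unfold RR
  field_simp

end Pool.Agent.K4W.H81
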